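import Mathlib

/-!
# The Wijsman hyperspace of a completely metrizable space is strongly `α`-favorable

For every completely metrizable space `X` and every compatible metric on `X` the player `α` has a
winning tactic (and hence a winning strategy) in the strong Choquet game on the space of nonempty
closed subsets of `X` with the Wijsman topology. No separability assumption is made.
-/

set_option autoImplicit false

universe u

namespace Pool.Agent.Results.MP_491d6e_gt.WijsmanStronglyFavorable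

open Set Topology Filter Metric
open scoped ENNReal

/-- The set of nonempty closed subsets of `X`. -/
def Hyp (X : Type u) [TopologicalSpace X] : Type u := {A : Set X // IsClosed A ∧ A.Nonempty}

/-- The Wijsman topology: the weakest topology on the set of nonempty closed subsets of the metric
space `X` for which all maps `A ↦ d(x, A)`, `x ∈ X`, are continuous. -/
noncomputable instance wijsmanTopology (X : Type u) [MetricSpace X] : TopologicalSpace (Hyp X) :=
  ⨅ x : X, TopologicalSpace.induced (fun A : Hyp X => Metric.infDist x A.1) inferInstance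

/-- `α` has a winning tactic in the strong Choquet game on `Y`: the answer `τ y U` to the last move
`(y, U)` of `β` is a legal move, and whenever `β` plays `(y n, U n)` against it, the intersection of
the answers of `α` is nonempty. -/
def StronglyAlphaFavorable (Y : Type u) [TopologicalSpace Y] : Prop :=
  ∃ τ : Y → Set Y → Set Y,
    (∀ (y : Y) (U : Set Y), IsOpen U → y ∈ U → IsOpen (τ y U) ∧ y ∈ τ y U ∧ τ y U ⊆ U) ∧
    ∀ (y : ℕ → Y) (U : ℕ → Set Y), (∀ n, IsOpen (U n) ∧ y n ∈ U n) →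
      (∀ n, U (n + 1) ⊆ τ (y n) (U n)) → (⋂ n, τ (y n) (U n)).Nonempty

/-- `α` has a winning strategy in the strong Choquet game on `Y`: the answer `σ n h` to the moves
`h 0, …, h n` of `β` is a legal move, and whenever `β` plays `m 0, m 1, …` against it, the
intersection of the answers of `α` is nonempty. -/
def StronglyChoquet (Y : Type u) [TopologicalSpace Y] : Prop :=
  ∃ σ : (n : ℕ) → (Fin (n + 1) → Y × Set Y) → Set Y,
    (∀ (n : ℕ) (h : Fin (n + 1) → Y × Set Y), IsOpen (h (Fin.last n)).2 →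
      (h (Fin.last n)).1 ∈ (h (Fin.last n)).2 →
      IsOpen (σ n h) ∧ (h (Fin.last n)).1 ∈ σ n h ∧ σ n h ⊆ (h (Fin.last n)).2) ∧
    ∀ m : ℕ → Y × Set Y, (∀ n, IsOpen (m n).2 ∧ (m n).1 ∈ (m n).2) →
      (∀ n, (m (n + 1)).2 ⊆ σ n (fun i => m i)) → (⋂ n, σ n (fun i => m i)).Nonempty

theorem StronglyAlphaFavorable.stronglyChoquet {Y : Type u} [TopologicalSpace Y]
    (h : StronglyAlphaFavorable Y) : StronglyChoquet Y := by
  obtain ⟨τ, h1, h2⟩ := h
  refine ⟨fun n h => τ (h (Fin.last n)).1 (h (Fin.last n)).2, fun n h ho hm => h1 _ _ ho hm, ?_⟩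
  intro m hm hs
  exact h2 (fun n => (m n).1) (fun n => (m n).2) hm hs

/-- A gauge for a completely metrizable topology (the diameter for a complete metric). -/
theorem exists_gauge (X : Type u) [TopologicalSpace X]
    [TopologicalSpace.IsCompletelyMetrizableSpace X] :
    ∃ g : Set X → ℝ≥0∞, (∀ s t, s ⊆ t → g s ≤ g t) ∧
      (∀ (x : X) (ε : ℝ≥0∞), 0 < ε → ∃ O ∈ 𝓝 x, g O ≤ ε) ∧
      ∀ (z : ℕ → X) (O : ℕ → Set X), Antitone O → (∀ n, z n ∈ O n) →
        Tendsto (fun n => g (O n)) atTop (𝓝 0) → ∃ p, Tendsto z atTop (𝓝 p) := by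
  let _ := TopologicalSpace.upgradeIsCompletelyMetrizable X
  refine ⟨fun s => ediam s, fun s t h => ediam_mono h, fun x ε hε => ?_, ?_⟩
  · refine ⟨eball x (ε / 2), eball_mem_nhds x (ENNReal.half_pos hε.ne'), ?_⟩
    refine ediam_eball_le.trans ?_
    rw [ENNReal.mul_div_cancel (by norm_num) (by norm_num)]
  · intro z O hO hz hg
    have hc : CauchySeq z := by
      rw [EMetric.cauchySeq_iff]
      intro ε hε
      obtain ⟨N, hN⟩ := ((tendsto_order.1 hg).2 ε hε).exists
      exact ⟨N, fun m hm n hn =>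
        (edist_le_ediam_of_mem (hO hm (hz m)) (hO hn (hz n))).trans_lt hN⟩
    exact cauchySeq_tendsto_of_complete hc

variable {X : Type u} [MetricSpace X]

theorem inducing_dist : IsInducing (fun (A : Hyp X) (x : X) => infDist x A.1) :=
  inducing_iInf_to_pi (fun (x : X) (A : Hyp X) => infDist x A.1)

theorem continuous_dist (x : X) : Continuous (fun A : Hyp X => infDist x A.1) :=
  (continuous_apply x).comp inducing_dist.continuous

/-- The basic open sets of the Wijsman topology: hit all open balls `B(x, r)`, `(x, r) ∈ C`, and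
have distance larger than `s` from `y` for all `(y, s) ∈ D`. -/
def Bas (C D : Set (X × ℝ)) : Set (Hyp X) :=
  {A | (∀ p ∈ C, infDist p.1 A.1 < p.2) ∧ ∀ p ∈ D, p.2 < infDist p.1 A.1}

theorem isOpen_Bas {C D : Set (X × ℝ)} (hC : C.Finite) (hD : D.Finite) : IsOpen (Bas C D) := by
  have : Bas C D = (⋂ p ∈ C, {A : Hyp X | infDist p.1 A.1 < p.2}) ∩
      ⋂ p ∈ D, {A : Hyp X | p.2 < infDist p.1 A.1} := by
    ext A; simp [Bas]
  rw [this]
  exact (hC.isOpen_biInter fun p _ => isOpen_lt (continuous_dist _) continuous_const).inter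
    (hD.isOpen_biInter fun p _ => isOpen_lt continuous_const (continuous_dist _))

theorem exists_Bas {A : Hyp X} {U : Set (Hyp X)} (hU : IsOpen U) (hA : A ∈ U) :
    ∃ C D : Set (X × ℝ), C.Finite ∧ D.Finite ∧ C.Nonempty ∧ A ∈ Bas C D ∧ Bas C D ⊆ U := by
  have hU' := hU.mem_nhds hA
  rw [inducing_dist.nhds_eq_comap, mem_comap] at hU'
  obtain ⟨V, hV, hVU⟩ := hU'
  rw [nhds_pi, Filter.mem_pi] at hV
  obtain ⟨I, hI, t, ht, htV⟩ := hV
  have : ∀ i, ∃ ε > 0, ball (infDist i A.1) ε ⊆ t i := fun i => Metric.mem_nhds_iff.1 (ht i)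
  choose e he het using this
  obtain ⟨a, ha⟩ := A.2.2
  refine ⟨insert (a, 1) ((fun i => (i, infDist i A.1 + e i)) '' I),
    (fun i => (i, infDist i A.1 - e i)) '' I, (hI.image _).insert _, hI.image _,
    insert_nonempty _ _, ⟨?_, ?_⟩, ?_⟩
  · rintro p (rfl | ⟨i, -, rfl⟩)
    · simp [infDist_zero_of_mem ha]
    · simp [he i]
  · rintro p ⟨i, -, rfl⟩
    simp [he i]
  · rintro B ⟨h1, h2⟩
    refine hVU (htV fun i hi => het i ?_)
    have h3 := h1 (i, infDist i A.1 + e i) (mem_insert_of_mem _ (mem_image_of_mem _ hi))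
    have h4 := h2 (i, infDist i A.1 - e i) (mem_image_of_mem _ hi)
    simp only at h3 h4
    rw [mem_ball, Real.dist_eq, abs_lt]
    constructor <;> linarith

/-- The key lemma: the answer of `α`. -/
theorem key (g : Set X → ℝ≥0∞) (hg1 : ∀ s t, s ⊆ t → g s ≤ g t)
    (hg2 : ∀ (x : X) (ε : ℝ≥0∞), 0 < ε → ∃ O ∈ 𝓝 x, g O ≤ ε)
    (A : Hyp X) (U : Set (Hyp X)) (hU : IsOpen U) (hA : A ∈ U) :
    ∃ (𝒪 : Set (Set X)) (D : Set (X × ℝ)) (V : Set (Hyp X)), 𝒪.Finite ∧ 𝒪.Nonempty ∧ IsOpen V ∧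
      A ∈ V ∧ V ⊆ U ∧
      (∀ B ∈ V, (∀ O ∈ 𝒪, (B.1 ∩ O).Nonempty) ∧ ∀ p ∈ D, p.2 < infDist p.1 B.1) ∧
      (∀ Z : Hyp X, (∀ O ∈ 𝒪, (Z.1 ∩ closure O).Nonempty) → (∀ p ∈ D, p.2 ≤ infDist p.1 Z.1) →
        Z ∈ U) ∧
      (∀ O ∈ 𝒪, g O ≤ 1) ∧
      ∀ T : Set X, (∀ B ∈ U, (B.1 ∩ T).Nonempty) →
        ∃ O ∈ 𝒪, closure O ⊆ T ∧ g O ≤ 2⁻¹ * g T := by
  obtain ⟨C, D, hC, hD, hCne, ⟨hA1, hA2⟩, hBU⟩ := exists_Bas hU hA
  have : Nonempty X := ⟨A.2.2.some⟩
  -- the open sets `G p`
  let G : X × ℝ → Set X := fun p => {x | dist p.1 x < p.2 ∧ ∀ q ∈ D, q.2 < dist q.1 x}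
  have hGo : ∀ p, IsOpen (G p) := by
    intro p
    have : G p = {x | dist p.1 x < p.2} ∩ ⋂ q ∈ D, {x | q.2 < dist q.1 x} := by
      ext x; simp [G]
    rw [this]
    exact (isOpen_lt (continuous_const.dist continuous_id) continuous_const).inter
      (hD.isOpen_biInter fun q _ => isOpen_lt continuous_const (continuous_const.dist continuous_id))
  have hz : ∀ p ∈ C, ∃ z ∈ A.1, z ∈ G p := by
    intro p hp
    obtain ⟨z, hz, hz'⟩ := (infDist_lt_iff A.2.2).1 (hA1 p hp)
    exact ⟨z, hz, hz', fun q hq => (hA2 q hq).trans_le (infDist_le_dist_of_mem hz)⟩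
  have hδ : ∀ p ∈ C, ∃ z ∈ A.1, ∃ δ > 0, closure (ball z δ) ⊆ G p ∧ g (ball z δ) ≤ 1 ∧
      g (ball z δ) ≤ 2⁻¹ * g (G p) := by
    intro p hp
    obtain ⟨z, hzA, hzG⟩ := hz p hp
    obtain ⟨δ₁, hδ₁, h1⟩ := Metric.isOpen_iff.1 (hGo p) z hzG
    obtain ⟨O, hO, hgO⟩ : ∃ O ∈ 𝓝 z, g O ≤ 1 ∧ (g (G p) ≠ 0 → g O ≤ 2⁻¹ * g (G p)) := by
      by_cases h0 : g (G p) = 0
      · obtain ⟨O, hO, hgO⟩ := hg2 z 1 one_pos
        exact ⟨O, hO, hgO, fun h => absurd h0 h⟩
      · have hpos : 0 < min 1 (2⁻¹ * g (G p)) := by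
          refine lt_min one_pos (ENNReal.mul_pos (by simp) h0)
        obtain ⟨O, hO, hgO⟩ := hg2 z _ hpos
        exact ⟨O, hO, hgO.trans (min_le_left _ _), fun _ => hgO.trans (min_le_right _ _)⟩
    obtain ⟨δ₂, hδ₂, h2⟩ := Metric.mem_nhds_iff.1 hO
    refine ⟨z, hzA, min (δ₁ / 2) δ₂, lt_min (half_pos hδ₁) hδ₂, ?_, ?_, ?_⟩
    · refine (closure_ball_subset_closedBall.trans ?_).trans h1
      refine closedBall_subset_ball ?_
      exact (min_le_left _ _).trans_lt (half_lt_self hδ₁)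
    · exact (hg1 _ _ ((ball_subset_ball (min_le_right _ _)).trans h2)).trans hgO.1
    · by_cases h0 : g (G p) = 0
      · have : g (ball z (min (δ₁ / 2) δ₂)) ≤ g (G p) := by
          refine hg1 _ _ ((ball_subset_ball ?_).trans h1)
          exact (min_le_left _ _).trans (half_le_self hδ₁.le)
        rw [h0] at this ⊢
        simpa using this
      · exact (hg1 _ _ ((ball_subset_ball (min_le_right _ _)).trans h2)).trans (hgO.2 h0)
  choose! z hzA δ hδ0 hδ1 hδ2 hδ3 using hδ
  let D' : Set (X × ℝ) := (fun q : X × ℝ => (q.1, (q.2 + infDist q.1 A.1) / 2)) '' D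
  refine ⟨(fun p => ball (z p) (δ p)) '' C, D', Bas ((fun p => (z p, δ p)) '' C) D', hC.image _,
    hCne.image _, isOpen_Bas (hC.image _) (hD.image _), ⟨?_, ?_⟩, ?_, ?_, ?_, ?_, ?_⟩
  · rintro _ ⟨p, hp, rfl⟩
    simp only
    rw [infDist_zero_of_mem (hzA p hp)]
    exact hδ0 p hp
  · rintro _ ⟨q, hq, rfl⟩
    have := hA2 q hq
    simp only
    linarith
  · rintro B ⟨h1, h2⟩
    refine hBU ⟨fun p hp => ?_, fun q hq => ?_⟩
    · have h3 := h1 _ (mem_image_of_mem _ hp)
      obtain ⟨b, hb, hb'⟩ := (infDist_lt_iff B.2.2).1 h3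
      have h4 : b ∈ G p := hδ1 p hp (subset_closure (by rwa [mem_ball']))
      exact (infDist_le_dist_of_mem hb).trans_lt h4.1
    · have h3 := h2 _ (mem_image_of_mem _ hq)
      have := hA2 q hq
      simp only at h3
      linarith
  · rintro B ⟨h1, h2⟩
    refine ⟨?_, h2⟩
    rintro _ ⟨p, hp, rfl⟩
    obtain ⟨b, hb, hb'⟩ := (infDist_lt_iff B.2.2).1 (h1 _ (mem_image_of_mem _ hp))
    exact ⟨b, hb, by rwa [mem_ball']⟩
  · intro Z h1 h2
    refine hBU ⟨fun p hp => ?_, fun q hq => ?_⟩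
    · obtain ⟨b, hb, hb'⟩ := h1 _ (mem_image_of_mem _ hp)
      exact (infDist_le_dist_of_mem hb).trans_lt (hδ1 p hp hb').1
    · have h3 := h2 _ (mem_image_of_mem _ hq)
      have := hA2 q hq
      simp only at h3
      linarith
  · rintro _ ⟨p, hp, rfl⟩
    exact hδ2 p hp
  · intro T hT
    obtain ⟨p, hp, hGT⟩ : ∃ p ∈ C, G p ⊆ T := by
      by_contra hcon
      push Not at hcon
      have : ∀ p ∈ C, ∃ b ∈ G p, b ∉ T := fun p hp => not_subset.1 (hcon p hp)
      choose! b hb1 hb2 using this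
      have hBU' : (⟨b '' C, (hC.image _).isClosed, hCne.image _⟩ : Hyp X) ∈ U := by
        refine hBU ⟨fun p hp => ?_, fun q hq => ?_⟩
        · exact (infDist_le_dist_of_mem (mem_image_of_mem _ hp)).trans_lt (hb1 p hp).1
        · have hfin := (hC.image b)
          obtain ⟨y, hy, hy'⟩ := hfin.isCompact.exists_infDist_eq_dist (hCne.image _) q.1
          simp only
          rw [hy']
          obtain ⟨p, hp, rfl⟩ := hy
          exact (hb1 p hp).2 q hq
      obtain ⟨_, ⟨p, hp, rfl⟩, h⟩ := hT _ hBU'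
      exact hb2 p hp h
    refine ⟨_, mem_image_of_mem _ hp, (hδ1 p hp).trans hGT, (hδ3 p hp).trans ?_⟩
    gcongr
    exact hg1 _ _ hGT

/-- **The Wijsman hyperspace of a completely metrizable space is strongly `α`-favorable.** -/
theorem favorable [TopologicalSpace.IsCompletelyMetrizableSpace X] :
    StronglyAlphaFavorable (Hyp X) := by
  classical
  obtain ⟨g, hg1, hg2, hg3⟩ := exists_gauge X
  have K := key (X := X) g hg1 hg2
  choose 𝒪 D V h𝒪f h𝒪ne hVo hAV hVU hVB hZ hO1 hT using K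
  refine ⟨fun A U => if h : IsOpen U ∧ A ∈ U then V A U h.1 h.2 else ∅, fun A U h1 h2 => ?_, ?_⟩
  · have h : IsOpen U ∧ A ∈ U := ⟨h1, h2⟩
    beta_reduce
    rw [dif_pos h]
    exact ⟨hVo A U h1 h2, hAV A U h1 h2, hVU A U h1 h2⟩
  · intro A U hAU hsub
    have : Nonempty X := ⟨(A 0).2.2.some⟩
    have hsub' : ∀ n, U (n + 1) ⊆ V (A n) (U n) (hAU n).1 (hAU n).2 := by
      intro n
      have := hsub n
      beta_reduce at this
      rwa [dif_pos (hAU n)] at this
    -- abbreviations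
    let W : ℕ → Set (Hyp X) := fun n => V (A n) (U n) (hAU n).1 (hAU n).2
    let P : ℕ → Set (Set X) := fun n => 𝒪 (A n) (U n) (hAU n).1 (hAU n).2
    let E : ℕ → Set (X × ℝ) := fun n => D (A n) (U n) (hAU n).1 (hAU n).2
    have hWU : ∀ n, W n ⊆ U n := fun n => hVU _ _ _ _
    have hUW : ∀ n, U (n + 1) ⊆ W n := hsub'
    have hUanti : Antitone U := antitone_nat_of_succ_le fun n => (hUW n).trans (hWU n)
    have hP1 : ∀ n, ∀ O ∈ P n, g O ≤ 1 := fun n => hO1 _ _ _ _
    -- refinement of the open sets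
    have hstep : ∀ n, ∀ O ∈ P n, ∃ O' ∈ P (n + 1), closure O' ⊆ O ∧ g O' ≤ 2⁻¹ * g O := by
      intro n O hO
      refine hT (A (n + 1)) (U (n + 1)) (hAU (n + 1)).1 (hAU (n + 1)).2 O fun B hB => ?_
      exact (hVB _ _ _ _ B (hUW n hB)).1 O hO
    choose! nxt hnxt1 hnxt2 hnxt3 using hstep
    -- the limit points
    have hlim : ∀ n, ∀ O ∈ P n, ∃ p ∈ closure O, ∀ k, ∀ q ∈ E k, q.2 ≤ dist q.1 p := by
      intro n O hO
      let Q : ℕ → Set X := fun m => Nat.rec O (fun m R => nxt (n + m) R) m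
      have hQs : ∀ m, Q (m + 1) = nxt (n + m) (Q m) := fun m => rfl
      have hQP : ∀ m, Q m ∈ P (n + m) := by
        intro m
        induction m with
        | zero => exact hO
        | succ m ih => exact hnxt1 _ _ ih
      have hQc : ∀ m, closure (Q (m + 1)) ⊆ Q m := fun m => hnxt2 _ _ (hQP m)
      have hQanti : Antitone Q := antitone_nat_of_succ_le fun m => subset_closure.trans (hQc m)
      have hQg : ∀ m, g (Q m) ≤ 2⁻¹ ^ m := by
        intro m
        induction m with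
        | zero =>
          show g O ≤ _
          simpa using hP1 n O hO
        | succ m ih =>
          refine (hnxt3 _ _ (hQP m)).trans ?_
          rw [pow_succ, mul_comm]
          gcongr
      have hex : ∀ m, ∃ z ∈ (A (n + m)).1, z ∈ Q m := by
        intro m
        exact (hVB _ _ _ _ (A (n + m)) (hAV _ _ _ _)).1 _ (hQP m)
      choose z hzA hzQ using hex
      obtain ⟨p, hp⟩ := hg3 z Q hQanti hzQ (by
        refine tendsto_of_tendsto_of_tendsto_of_le_of_le tendsto_const_nhds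
          (ENNReal.tendsto_pow_atTop_nhds_zero_of_lt_one (r := 2⁻¹) (by simp)) (fun _ => zero_le)
          hQg)
      refine ⟨p, ?_, ?_⟩
      · exact mem_closure_of_tendsto hp (Eventually.of_forall fun m => hQanti (Nat.zero_le m) (hzQ m))
      · intro k q hq
        refine ge_of_tendsto (tendsto_const_nhds.dist hp) ?_
        filter_upwards [eventually_ge_atTop (k + 1)] with m hm
        have h1 : A (n + m) ∈ W k := hUW k (hUanti (by omega) (hAU (n + m)).2)
        exact ((hVB _ _ _ _ _ h1).2 q hq).le.trans (infDist_le_dist_of_mem (hzA m))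
    choose! p hp1 hp2 using hlim
    let Z₀ : Set X := {x | ∃ n, ∃ O ∈ P n, x = p n O}
    have hZ₀ : Z₀.Nonempty := by
      obtain ⟨O, hO⟩ := h𝒪ne (A 0) (U 0) (hAU 0).1 (hAU 0).2
      exact ⟨_, 0, O, hO, rfl⟩
    let Z : Hyp X := ⟨closure Z₀, isClosed_closure, hZ₀.closure⟩
    have hZU : ∀ n, Z ∈ U n := by
      intro n
      refine hZ (A n) (U n) (hAU n).1 (hAU n).2 Z (fun O hO => ?_) (fun q hq => ?_)
      · exact ⟨p n O, subset_closure ⟨n, O, hO, rfl⟩, hp1 n O hO⟩
      · show q.2 ≤ infDist q.1 (closure Z₀)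
        rw [infDist_closure, le_infDist hZ₀]
        rintro _ ⟨m, O, hO, rfl⟩
        exact hp2 m O hO n q hq
    refine ⟨Z, mem_iInter.2 fun n => ?_⟩
    beta_reduce
    rw [dif_pos (hAU n)]
    exact hUW n (hZU (n + 1))

/-- For every completely metrizable space `X` and every compatible metric on `X`, the hyperspace of
nonempty closed sets with the Wijsman topology is strongly `α`-favorable and strongly Choquet. -/
theorem result (X : Type u) [MetricSpace X] [TopologicalSpace.IsCompletelyMetrizableSpace X] :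
    StronglyAlphaFavorable (Hyp X) ∧ StronglyChoquet (Hyp X) :=
  ⟨favorable, favorable.stronglyChoquet⟩

end Pool.Agent.Results.MP_491d6e_gt.WijsmanStronglyFavorable
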